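import Mathlib

/-!
# Arithmetic for Theorem E (even half of MP_f155e9, all `n`)

`ch n i = C(n,i)` for integers `i` (`0` for `i < 0`), with values in `ℚ`; `d n i = ch n i - ch n (i-1)`;
`LL n a b u v` is the affine function through `(C(n,a), C(n,b+1))` and `(C(n,a+1), C(n,b))`.
-/

namespace EH57

/-- binomial coefficient with an integer lower index, rational values -/
def ch (n : ℕ) (i : ℤ) : ℚ := if 0 ≤ i then (n.choose i.toNat : ℚ) else 0

/-- difference of consecutive binomial coefficients -/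
def d (n : ℕ) (i : ℤ) : ℚ := ch n i - ch n (i - 1)

/-- line through `P_a = (C(n,a), C(n,b+1))` and `P_(a+1) = (C(n,a+1), C(n,b))`. -/
def LL (n : ℕ) (a b : ℤ) (u v : ℚ) : ℚ :=
  (u - ch n a) * d n (b + 1) + (v - ch n b) * d n (a + 1) - d n (a + 1) * d n (b + 1)

theorem ch_neg {n : ℕ} {i : ℤ} (h : i < 0) : ch n i = 0 := by
  unfold ch; rw [if_neg (by omega)]

theorem ch_nat (n i : ℕ) : ch n (i : ℤ) = (n.choose i : ℚ) := by
  unfold ch; simp

theorem ch_zero (n : ℕ) : ch n 0 = 1 := by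
  have := ch_nat n 0; simpa using this

theorem ch_nonneg (n : ℕ) (i : ℤ) : 0 ≤ ch n i := by
  unfold ch; split_ifs <;> positivity

theorem ch_pos {n : ℕ} {i : ℤ} (h0 : 0 ≤ i) (h1 : i ≤ n) : 0 < ch n i := by
  obtain ⟨k, rfl⟩ := Int.eq_ofNat_of_zero_le h0
  rw [ch_nat]
  have : 0 < n.choose k := Nat.choose_pos (by exact_mod_cast h1)
  exact_mod_cast this

theorem ch_succ (n : ℕ) (i : ℤ) : ch (n + 1) i = ch n i + ch n (i - 1) := by
  rcases lt_trichotomy i 0 with h | h | h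
  · rw [ch_neg h, ch_neg h, ch_neg (by omega)]; ring
  · subst h; rw [ch_zero, ch_zero, ch_neg (by omega)]; ring
  · obtain ⟨k, rfl⟩ : ∃ k : ℕ, i = (k : ℤ) + 1 := ⟨(i - 1).toNat, by omega⟩
    have e : ((k : ℤ) + 1 - 1) = (k : ℤ) := by ring
    rw [e]
    have e2 : ((k : ℤ) + 1) = ((k + 1 : ℕ) : ℤ) := by push_cast; ring
    rw [e2, ch_nat, ch_nat, ch_nat, Nat.choose_succ_succ]
    push_cast; ring

theorem d_succ (n : ℕ) (i : ℤ) : d (n + 1) i = d n i + d n (i - 1) := by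
  unfold d; rw [ch_succ, ch_succ]; ring

theorem d_neg {n : ℕ} {i : ℤ} (h : i < 0) : d n i = 0 := by
  unfold d; rw [ch_neg h, ch_neg (by omega)]; ring

theorem d_zero (n : ℕ) : d n 0 = 1 := by
  unfold d; rw [ch_zero, ch_neg (by omega)]; ring

theorem d_one (n : ℕ) : d n 1 = n - 1 := by
  unfold d
  have h1 : ch n 1 = n := by have := ch_nat n 1; simpa using this
  have h2 : ch n (1 - 1) = 1 := by simpa using ch_zero n
  rw [h1, h2]

/-- `(j+1) C(n,j+1) = (n-j) C(n,j)` -/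
theorem ch_ratio (n : ℕ) {j : ℤ} (h0 : 0 ≤ j) : ((j : ℚ) + 1) * ch n (j + 1) = ((n : ℚ) - j) * ch n j := by
  obtain ⟨k, rfl⟩ := Int.eq_ofNat_of_zero_le h0
  have e2 : ((k : ℤ) + 1) = ((k + 1 : ℕ) : ℤ) := by push_cast; ring
  rw [e2, ch_nat, ch_nat]
  push_cast
  rcases le_or_gt k n with h | h
  · have := Nat.choose_succ_right_eq n k
    have h2 : ((n.choose (k + 1) * (k + 1) : ℕ) : ℚ) = ((n.choose k * (n - k) : ℕ) : ℚ) := by
      exact_mod_cast this
    rw [Nat.cast_mul, Nat.cast_mul, Nat.cast_sub h] at h2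
    push_cast at h2
    linarith
  · rw [Nat.choose_eq_zero_of_lt h, Nat.choose_eq_zero_of_lt (by omega)]; simp

/-- `(n+1-j) d n j = (n+1-2j) C(n,j)` for `j ≥ 0` -/
theorem d_formula (n : ℕ) {j : ℤ} (h0 : 0 ≤ j) :
    ((n : ℚ) + 1 - j) * d n j = ((n : ℚ) + 1 - 2 * j) * ch n j := by
  rcases h0.eq_or_lt with h | h
  · subst h; rw [d_zero, ch_zero]; simp
  · have h1 := ch_ratio n (j := j - 1) (by omega)
    have e : j - 1 + 1 = j := by ring
    rw [e] at h1
    push_cast at h1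
    unfold d
    linarith

theorem d_pos {n : ℕ} {j : ℤ} (h0 : 0 ≤ j) (h1 : 2 * j ≤ n) : 0 < d n j := by
  have hf := d_formula n h0
  have hc : 0 < ch n j := ch_pos h0 (by omega)
  have h1' : (2 : ℚ) * j ≤ n := by exact_mod_cast h1
  have h0' : (0 : ℚ) ≤ j := by exact_mod_cast h0
  have hp : (0 : ℚ) < (n : ℚ) + 1 - j := by linarith
  have hq : (0 : ℚ) < ((n : ℚ) + 1 - 2 * j) * ch n j := mul_pos (by linarith) hc
  rw [← hf] at hq
  exact (pos_iff_pos_of_mul_pos hq).1 hp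

theorem d_eq_zero {n : ℕ} {j : ℤ} (h1 : 2 * j = n + 1) : d n j = 0 := by
  have h0 : 0 ≤ j := by omega
  have hf := d_formula n h0
  have h1' : (2 : ℚ) * j = n + 1 := by exact_mod_cast h1
  have : ((n : ℚ) + 1 - 2 * j) = 0 := by linarith
  rw [this, zero_mul] at hf
  rcases mul_eq_zero.1 hf with h | h
  · exfalso
    have hn : (0 : ℚ) ≤ n := by positivity
    linarith
  · exact h

theorem d_nonneg {n : ℕ} {j : ℤ} (h1 : 2 * j ≤ n + 1) : 0 ≤ d n j := by
  rcases lt_or_ge j 0 with h | h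
  · rw [d_neg h]
  · rcases h1.eq_or_lt with h2 | h2
    · rw [d_eq_zero h2]
    · exact (d_pos h (by omega)).le

/-- ratio of consecutive differences -/
theorem d_ratio (n : ℕ) {j : ℤ} (h0 : 0 ≤ j) (h1 : 2 * j ≤ n) :
    ((j : ℚ) + 1) * ((n : ℚ) + 1 - 2 * j) * d n (j + 1)
      = ((n : ℚ) - 2 * j - 1) * ((n : ℚ) + 1 - j) * d n j := by
  have h2 := d_formula n (j := j + 1) (by omega)
  have h3 := d_formula n (j := j) h0
  have h4 := ch_ratio n (j := j) h0
  push_cast at h2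
  have h1' : (2 : ℚ) * j ≤ n := by exact_mod_cast h1
  have h0' : (0 : ℚ) ≤ j := by exact_mod_cast h0
  by_cases hz : (n : ℚ) - j = 0
  · -- then n = j = 0
    have hj : (j : ℚ) = 0 := by linarith
    have hn : (n : ℚ) = 0 := by linarith
    have hj' : j = 0 := by exact_mod_cast hj
    have hn' : n = 0 := by exact_mod_cast hn
    subst hj' hn'
    rw [d_zero]
    have : d 0 (0 + 1) = -1 := by
      have := d_one 0; simpa using this
    rw [this]; norm_num
  · have h5 : ((n : ℚ) - j) * (((j : ℚ) + 1) * ((n : ℚ) + 1 - 2 * j) * d n (j + 1)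
      - ((n : ℚ) - 2 * j - 1) * ((n : ℚ) + 1 - j) * d n j) = 0 := by
      linear_combination ((j : ℚ) + 1) * ((n : ℚ) + 1 - 2 * j) * h2
        - ((n : ℚ) - j) * ((n : ℚ) - 2 * j - 1) * h3
        + ((n : ℚ) + 1 - 2 * j) * ((n : ℚ) + 1 - 2 * (j + 1)) * h4
    rcases mul_eq_zero.1 h5 with h | h
    · exact absurd h hz
    · linarith


/-- convexity / concavity determinant at the vertex `(a,b)` -/
def kappa (n : ℕ) (a b : ℤ) : ℚ := d n (a + 1) * d n (b + 1) - d n a * d n b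

theorem kappa_formula (n : ℕ) {a b : ℤ} (ha : 0 ≤ a) (hb : 0 ≤ b) (ha2 : 2 * a ≤ n) (hb2 : 2 * b ≤ n) :
    (((a : ℚ) + 1) * ((n : ℚ) + 1 - 2 * a)) * (((b : ℚ) + 1) * ((n : ℚ) + 1 - 2 * b)) * kappa n a b
      = (d n a * d n b) * (((n : ℚ) + 1) * ((n : ℚ) - a - b)
        * (((n : ℚ) - 2 * a) * ((n : ℚ) - 2 * b) - ((n : ℚ) + 2))) := by
  have h1 := d_ratio n ha ha2
  have h2 := d_ratio n hb hb2
  have h3 : (((a : ℚ) + 1) * ((n : ℚ) + 1 - 2 * a) * d n (a + 1))
      * (((b : ℚ) + 1) * ((n : ℚ) + 1 - 2 * b) * d n (b + 1))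
      = (((n : ℚ) - 2 * a - 1) * ((n : ℚ) + 1 - a) * d n a)
      * (((n : ℚ) - 2 * b - 1) * ((n : ℚ) + 1 - b) * d n b) := by rw [h1, h2]
  unfold kappa
  linear_combination h3

theorem kappa_nonneg {n : ℕ} {a b : ℤ} (ha : 0 ≤ a) (hb : 0 ≤ b) (ha2 : 2 * a ≤ n) (hb2 : 2 * b ≤ n)
    (h : (n : ℤ) + 2 ≤ ((n : ℤ) - 2 * a) * ((n : ℤ) - 2 * b)) : 0 ≤ kappa n a b := by
  have hf := kappa_formula n ha hb ha2 hb2
  have ha' : (0 : ℚ) ≤ a := by exact_mod_cast ha
  have hb' : (0 : ℚ) ≤ b := by exact_mod_cast hb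
  have ha2' : (2 : ℚ) * a ≤ n := by exact_mod_cast ha2
  have hb2' : (2 : ℚ) * b ≤ n := by exact_mod_cast hb2
  have h' : (n : ℚ) + 2 ≤ ((n : ℚ) - 2 * a) * ((n : ℚ) - 2 * b) := by exact_mod_cast h
  have hda := d_pos ha ha2
  have hdb := d_pos hb hb2
  have hpos : (0 : ℚ) < (((a : ℚ) + 1) * ((n : ℚ) + 1 - 2 * a)) * (((b : ℚ) + 1) * ((n : ℚ) + 1 - 2 * b)) := by
    apply mul_pos <;> apply mul_pos <;> linarith
  have hr : (0 : ℚ) ≤ (d n a * d n b) * (((n : ℚ) + 1) * ((n : ℚ) - a - b)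
        * (((n : ℚ) - 2 * a) * ((n : ℚ) - 2 * b) - ((n : ℚ) + 2))) := by
    apply mul_nonneg (mul_pos hda hdb).le
    apply mul_nonneg
    · apply mul_nonneg <;> [positivity; linarith]
    · linarith
  rw [← hf] at hr
  exact nonneg_of_mul_nonneg_right hr hpos

theorem kappa_nonpos {n : ℕ} {a b : ℤ} (ha : 0 ≤ a) (hb : 0 ≤ b) (ha2 : 2 * a ≤ n) (hb2 : 2 * b ≤ n)
    (h : ((n : ℤ) - 2 * a) * ((n : ℤ) - 2 * b) ≤ (n : ℤ) + 2) : kappa n a b ≤ 0 := by
  have hf := kappa_formula n ha hb ha2 hb2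
  have ha' : (0 : ℚ) ≤ a := by exact_mod_cast ha
  have hb' : (0 : ℚ) ≤ b := by exact_mod_cast hb
  have ha2' : (2 : ℚ) * a ≤ n := by exact_mod_cast ha2
  have hb2' : (2 : ℚ) * b ≤ n := by exact_mod_cast hb2
  have h' : ((n : ℚ) - 2 * a) * ((n : ℚ) - 2 * b) ≤ (n : ℚ) + 2 := by exact_mod_cast h
  have hda := d_pos ha ha2
  have hdb := d_pos hb hb2
  have hpos : (0 : ℚ) < (((a : ℚ) + 1) * ((n : ℚ) + 1 - 2 * a)) * (((b : ℚ) + 1) * ((n : ℚ) + 1 - 2 * b)) := by
    apply mul_pos <;> apply mul_pos <;> linarith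
  have hr : (d n a * d n b) * (((n : ℚ) + 1) * ((n : ℚ) - a - b)
        * (((n : ℚ) - 2 * a) * ((n : ℚ) - 2 * b) - ((n : ℚ) + 2))) ≤ 0 := by
    apply mul_nonpos_of_nonneg_of_nonpos (mul_pos hda hdb).le
    apply mul_nonpos_of_nonneg_of_nonpos
    · apply mul_nonneg <;> [positivity; linarith]
    · linarith
  rw [← hf] at hr
  by_contra hcon
  push Not at hcon
  have := mul_pos hpos hcon
  linarith

/-! ### elementary facts on `LL` -/

theorem LL_comm (n : ℕ) (a b : ℤ) (u v : ℚ) : LL n a b u v = LL n b a v u := by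
  unfold LL; ring

theorem LL_succ (N : ℕ) (a b : ℤ) (u0 u1 v0 v1 : ℚ) :
    LL (N + 1) a b (u0 + u1) (v0 + v1)
      = ((u0 - ch N a) + (u1 - ch N a)) * (d N b + d N (b + 1))
        + ((v0 - ch N b) + (v1 - ch N b)) * (d N a + d N (a + 1)) - kappa N a b := by
  unfold LL kappa
  rw [ch_succ, ch_succ, d_succ, d_succ]
  have e1 : a + 1 - 1 = a := by ring
  have e2 : b + 1 - 1 = b := by ring
  rw [e1, e2]
  have h1 : ch N (a - 1) = ch N a - d N a := by unfold d; ring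
  have h2 : ch N (b - 1) = ch N b - d N b := by unfold d; ring
  rw [h1, h2]; ring

theorem ch_mono {n : ℕ} {j k : ℤ} (hjk : j ≤ k) (hk : 2 * k ≤ n + 1) : ch n j ≤ ch n k := by
  obtain ⟨m, rfl⟩ := Int.le.dest hjk
  clear hjk
  induction m with
  | zero => simp
  | succ m ih =>
    have h1 := ih (by push_cast at hk ⊢; omega)
    have h2 : 0 ≤ d n (j + ((m + 1 : ℕ) : ℤ)) := d_nonneg hk
    unfold d at h2
    have e : j + ((m + 1 : ℕ) : ℤ) - 1 = j + (m : ℤ) := by push_cast; ring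
    rw [e] at h2
    linarith

theorem ch_strictMono {n : ℕ} {j k : ℤ} (hk0 : 0 ≤ k) (hjk : j < k) (hk : 2 * k ≤ n) : ch n j < ch n k := by
  have h1 : ch n j ≤ ch n (k - 1) := ch_mono (by omega) (by omega)
  have h2 : 0 < d n k := d_pos hk0 hk
  unfold d at h2
  linarith

/-! ### numerical forms of the two inductive statements -/

/-- numerical instance of `S(n;a,b)` -/
def SS (n : ℕ) (a b : ℤ) (u v : ℚ) : Prop :=
  0 < u → 0 < v → ch n a ≤ u → ch n b ≤ v → LL n a b u v ≤ 0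

/-- numerical instance of `LINE(n;a,b)` -/
def LN (n : ℕ) (a b : ℤ) (u v : ℚ) : Prop := ch n a ≤ u → LL n a b u v ≤ 0

theorem SS_symm {n : ℕ} {a b : ℤ} {u v : ℚ} (h : SS n a b u v) : SS n b a v u := by
  intro hu hv h1 h2
  rw [LL_comm]
  exact h hv hu h2 h1

theorem LN_SS {n : ℕ} {a b : ℤ} {u v : ℚ} (h : LN n a b u v) : SS n a b u v := by
  intro _ _ h1 _
  exact h h1

/-- unbalanced sub-case of the convex step: `u1 ≤ C(N,a-1)` -/
theorem stepA_unb {N : ℕ} {a b : ℤ} (ha : 0 ≤ a) (hb : 0 ≤ b) (ha2 : 2 * (a + 1) ≤ N) (hb2 : 2 * (b + 1) ≤ N)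
    {u0 u1 v0 v1 : ℚ}
    (h2 : SS N a (b - 1) u0 v1) (h3 : SS N a b u0 v0)
    (hu : ch (N + 1) a ≤ u0 + u1) (hv : ch (N + 1) b ≤ v0 + v1)
    (hun : u1 ≤ ch N (a - 1)) : LL (N + 1) a b (u0 + u1) (v0 + v1) ≤ 0 := by
  have ea : 0 < d N (a + 1) := d_pos (by omega) ha2
  have eb : 0 < d N (b + 1) := d_pos (by omega) hb2
  have ea0 : 0 < d N a := d_pos ha (by omega)
  have eb0 : 0 < d N b := d_pos hb (by omega)
  have hca : 0 < ch N a := ch_pos ha (by omega)
  have hcb : 0 < ch N b := ch_pos hb (by omega)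
  rw [ch_succ] at hu hv
  have hu0 : ch N a ≤ u0 := by linarith
  have hda : ch N (a - 1) = ch N a - d N a := by unfold d; ring
  have hdb : ch N (b - 1) = ch N b - d N b := by unfold d; ring
  have hb1 : 0 ≤ ch N (b - 1) := ch_nonneg _ _
  have e2 : b - 1 + 1 = b := by ring
  -- the two facts
  have f2 : 0 < v1 → ch N (b - 1) ≤ v1 → (u0 - ch N a) * d N b + (v1 - ch N b) * d N (a + 1) ≤ 0 := by
    intro q1 q2
    have := h2 (by linarith) q1 hu0 q2
    unfold LL at this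
    rw [e2, hdb] at this
    linarith
  have f3 : ch N b ≤ v0 →
      (u0 - ch N a) * d N (b + 1) + (v0 - ch N b) * d N (a + 1) ≤ d N (a + 1) * d N (b + 1) := by
    intro q2
    have := h3 (by linarith) (by linarith) hu0 q2
    unfold LL at this
    linarith
  -- s ≤ 1
  have hs : u0 - ch N a ≤ d N (a + 1) := by
    rcases le_or_gt (ch N b) v0 with hc | hc
    · have := f3 hc
      have h4 : 0 ≤ (v0 - ch N b) * d N (a + 1) := mul_nonneg (by linarith) ea.le
      have h5 : (u0 - ch N a) * d N (b + 1) ≤ d N (a + 1) * d N (b + 1) := by linarith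
      exact le_of_mul_le_mul_right h5 eb
    · have q1 : ch N (b - 1) < v1 := by linarith
      have := f2 (by linarith) q1.le
      have h4 : (v1 - ch N b) * d N (a + 1) ≥ - d N b * d N (a + 1) := by
        apply mul_le_mul_of_nonneg_right _ ea.le
        linarith
      have h5 : (u0 - ch N a) * d N b ≤ d N (a + 1) * d N b := by linarith
      exact le_of_mul_le_mul_right h5 eb0
  -- bound for v1
  have g1 : (v1 - ch N b) * d N (a + 1) ≤ - (u0 - ch N a) * d N b := by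
    by_cases hc : 0 < v1 ∧ ch N (b - 1) ≤ v1
    · have := f2 hc.1 hc.2
      linarith
    · have hc' : v1 ≤ ch N (b - 1) := by
        by_contra hcon
        push Not at hcon
        exact hc ⟨by linarith, hcon.le⟩
      have h4 : (v1 - ch N b) * d N (a + 1) ≤ (- d N b) * d N (a + 1) := by
        apply mul_le_mul_of_nonneg_right _ ea.le
        linarith
      have h5 : (u0 - ch N a) * d N b ≤ d N (a + 1) * d N b := mul_le_mul_of_nonneg_right hs eb0.le
      linarith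
  have g0 : (v0 - ch N b) * d N (a + 1) ≤ (d N (a + 1) - (u0 - ch N a)) * d N (b + 1) := by
    rcases le_or_gt (ch N b) v0 with hc | hc
    · have := f3 hc
      linarith
    · have h4 : (v0 - ch N b) * d N (a + 1) ≤ 0 := mul_nonpos_of_nonpos_of_nonneg (by linarith) ea.le
      have h5 : 0 ≤ (d N (a + 1) - (u0 - ch N a)) * d N (b + 1) := mul_nonneg (by linarith) eb.le
      linarith
  -- multiply LL by d N (a+1)
  have key : LL (N + 1) a b (u0 + u1) (v0 + v1) * d N (a + 1) ≤ 0 := by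
    have hq : (u0 + u1 - ch (N + 1) a) ≤ u0 - ch N a := by rw [ch_succ]; linarith
    have hp0 : 0 ≤ u0 - ch N a := by linarith
    have hq2 : (u0 + u1 - ch (N + 1) a) * (d N b + d N (b + 1)) ≤ (u0 - ch N a) * (d N b + d N (b + 1)) :=
      mul_le_mul_of_nonneg_right hq (by linarith)
    have hvv : (v0 + v1 - ch (N + 1) b) * d N (a + 1)
        ≤ (d N (a + 1) - (u0 - ch N a)) * (d N b + d N (b + 1)) := by
      rw [ch_succ, hdb]; linarith
    have e3 : LL (N + 1) a b (u0 + u1) (v0 + v1)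
        = (u0 + u1 - ch (N + 1) a) * (d N b + d N (b + 1))
          + (v0 + v1 - ch (N + 1) b) * (d N a + d N (a + 1))
          - (d N a + d N (a + 1)) * (d N b + d N (b + 1)) := by
      unfold LL
      rw [d_succ N (b + 1), d_succ N (a + 1)]
      have e1 : a + 1 - 1 = a := by ring
      have e2 : b + 1 - 1 = b := by ring
      rw [e1, e2]; ring
    rw [e3]
    have h6 : (v0 + v1 - ch (N + 1) b) * d N (a + 1) * (d N a + d N (a + 1))
        ≤ (d N (a + 1) - (u0 - ch N a)) * (d N b + d N (b + 1)) * (d N a + d N (a + 1)) :=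
      mul_le_mul_of_nonneg_right hvv (by linarith)
    have h7 : (u0 + u1 - ch (N + 1) a) * (d N b + d N (b + 1)) * d N (a + 1)
        ≤ (u0 - ch N a) * (d N b + d N (b + 1)) * d N (a + 1) := mul_le_mul_of_nonneg_right hq2 ea.le
    have h8 : 0 ≤ (u0 - ch N a) * (d N b + d N (b + 1)) * d N a :=
      mul_nonneg (mul_nonneg hp0 (by linarith)) ea0.le
    nlinarith [h6, h7, h8]
  by_contra hcon
  push Not at hcon
  have := mul_pos hcon ea
  linarith


/-- the pure inequality behind the balanced convex step -/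
theorem balanced_aux {x y A B C D : ℚ} (hA : 0 < A) (hB : 0 < B) (hC : 0 < C) (hD : 0 < D)
    (h1 : 0 ≤ y → x * B + y * C ≤ 0) (h2 : 0 ≤ x → x * D + y * A ≤ 0) (hx : - C < x) (hy : - D < y) :
    (x < 0 ∧ y < 0) ∨ (x * (D + B) + y * (C + A) ≤ 0) ∨
    (0 ≤ x ∧ y < 0 ∧ x ≤ A ∧ (x * (D + B) + y * (C + A)) * A ≤ x * (A * B - C * D)) ∨
    (x < 0 ∧ 0 ≤ y ∧ y ≤ B ∧ (x * (D + B) + y * (C + A)) * B ≤ y * (A * B - C * D)) := by
  rcases lt_or_ge x 0 with hx0 | hx0
  · rcases lt_or_ge y 0 with hy0 | hy0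
    · left; exact ⟨hx0, hy0⟩
    · right; right; right
      have h := h1 hy0
      refine ⟨hx0, hy0, ?_, ?_⟩
      · -- y C ≤ - x B < C B
        have h3 : - x * B ≤ C * B := mul_le_mul_of_nonneg_right (by linarith) hB.le
        have h4 : y * C ≤ B * C := by linarith
        exact le_of_mul_le_mul_right h4 hC
      · have h5 : (x * B + y * C) * (D + B) ≤ 0 := mul_nonpos_of_nonpos_of_nonneg h (by linarith)
        nlinarith [h5]
  · rcases lt_or_ge y 0 with hy0 | hy0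
    · right; right; left
      have h := h2 hx0
      refine ⟨hx0, hy0, ?_, ?_⟩
      · have h3 : - y * A ≤ D * A := mul_le_mul_of_nonneg_right (by linarith) hA.le
        have h4 : x * D ≤ A * D := by linarith
        exact le_of_mul_le_mul_right h4 hD
      · have h5 : (x * D + y * A) * (C + A) ≤ 0 := mul_nonpos_of_nonpos_of_nonneg h (by linarith)
        nlinarith [h5]
    · right; left
      have a1 := h1 hy0
      have a2 := h2 hx0
      linarith

/-- the balanced convex step, pure form -/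
theorem balanced_pure {x0 y0 x1 y1 A B C D : ℚ} (hA : 0 < A) (hB : 0 < B) (hC : 0 < C) (hD : 0 < D)
    (hk : 0 ≤ A * B - C * D)
    (h10 : 0 ≤ y0 → x0 * B + y0 * C ≤ 0) (h20 : 0 ≤ x0 → x0 * D + y0 * A ≤ 0)
    (h11 : 0 ≤ y1 → x1 * B + y1 * C ≤ 0) (h21 : 0 ≤ x1 → x1 * D + y1 * A ≤ 0)
    (hx0 : - C < x0) (hy0 : - D < y0) (hx1 : - C < x1) (hy1 : - D < y1)
    (h3 : 0 ≤ x0 → 0 ≤ y1 → x0 * B + y1 * A ≤ A * B)
    (h4 : 0 ≤ x1 → 0 ≤ y0 → x1 * B + y0 * A ≤ A * B)
    (hsx : - C ≤ x0 + x1) (hsy : - D ≤ y0 + y1) :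
    (x0 * (D + B) + y0 * (C + A)) + (x1 * (D + B) + y1 * (C + A)) ≤ A * B - C * D := by
  set c0 := x0 * (D + B) + y0 * (C + A) with hc0
  set c1 := x1 * (D + B) + y1 * (C + A) with hc1
  have hneg : ∀ x y : ℚ, x < 0 → y < 0 → x * (D + B) + y * (C + A) ≤ 0 := by
    intro x y hx hy
    have q1 : x * (D + B) ≤ 0 := mul_nonpos_of_nonpos_of_nonneg hx.le (by linarith)
    have q2 : y * (C + A) ≤ 0 := mul_nonpos_of_nonpos_of_nonneg hy.le (by linarith)
    linarith
  have hsmall : ∀ c x K M : ℚ, 0 < M → 0 ≤ K → x ≤ M → c * M ≤ x * K → c ≤ K := by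
    intro c x K M hM hK hx hc
    have : c * M ≤ K * M := by
      have : x * K ≤ M * K := mul_le_mul_of_nonneg_right hx hK
      linarith
    exact le_of_mul_le_mul_right this hM
  have b0 := balanced_aux (x := x0) (y := y0) hA hB hC hD h10 h20 hx0 hy0
  have b1 := balanced_aux (x := x1) (y := y1) hA hB hC hD h11 h21 hx1 hy1
  rw [← hc0] at b0
  rw [← hc1] at b1
  -- classify
  have cases0 : c0 ≤ 0 ∨ (0 ≤ x0 ∧ y0 < 0 ∧ x0 ≤ A ∧ c0 * A ≤ x0 * (A * B - C * D)) ∨
      (x0 < 0 ∧ 0 ≤ y0 ∧ y0 ≤ B ∧ c0 * B ≤ y0 * (A * B - C * D)) := by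
    rcases b0 with h | h | h | h
    · left; exact hneg x0 y0 h.1 h.2
    · left; exact h
    · right; left; exact h
    · right; right; exact h
  have cases1 : c1 ≤ 0 ∨ (0 ≤ x1 ∧ y1 < 0 ∧ x1 ≤ A ∧ c1 * A ≤ x1 * (A * B - C * D)) ∨
      (x1 < 0 ∧ 0 ≤ y1 ∧ y1 ≤ B ∧ c1 * B ≤ y1 * (A * B - C * D)) := by
    rcases b1 with h | h | h | h
    · left; exact hneg x1 y1 h.1 h.2
    · left; exact h
    · right; left; exact h
    · right; right; exact h
  have up0 : c0 ≤ A * B - C * D := by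
    rcases cases0 with h | h | h
    · linarith
    · exact hsmall c0 x0 _ A hA hk h.2.2.1 h.2.2.2
    · exact hsmall c0 y0 _ B hB hk h.2.2.1 h.2.2.2
  have up1 : c1 ≤ A * B - C * D := by
    rcases cases1 with h | h | h
    · linarith
    · exact hsmall c1 x1 _ A hA hk h.2.2.1 h.2.2.2
    · exact hsmall c1 y1 _ B hB hk h.2.2.1 h.2.2.2
  rcases cases0 with h | ⟨g1, g2, g3, g4⟩ | ⟨g1, g2, g3, g4⟩
  · linarith
  · rcases cases1 with h | ⟨k1, k2, k3, k4⟩ | ⟨k1, k2, k3, k4⟩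
    · linarith
    · -- both x ≥ 0
      have a0 := h20 g1
      have a1 := h21 k1
      have e1 : (x0 + x1) * D ≤ A * D := by
        have : - (y0 + y1) * A ≤ D * A := mul_le_mul_of_nonneg_right (by linarith) hA.le
        linarith
      have e2 : x0 + x1 ≤ A := le_of_mul_le_mul_right e1 hD
      refine hsmall (c0 + c1) (x0 + x1) _ A hA hk e2 ?_
      linarith
    · -- x0 ≥ 0, y1 ≥ 0
      have a := h3 g1 k2
      have e1 : (c0 + c1) * (A * B) ≤ (A * B - C * D) * (A * B) := by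
        have f1 : c0 * A * B ≤ x0 * (A * B - C * D) * B := mul_le_mul_of_nonneg_right g4 hB.le
        have f2 : c1 * B * A ≤ y1 * (A * B - C * D) * A := mul_le_mul_of_nonneg_right k4 hA.le
        have f3 : (x0 * B + y1 * A) * (A * B - C * D) ≤ A * B * (A * B - C * D) :=
          mul_le_mul_of_nonneg_right a hk
        linarith
      exact le_of_mul_le_mul_right e1 (mul_pos hA hB)
  · rcases cases1 with h | ⟨k1, k2, k3, k4⟩ | ⟨k1, k2, k3, k4⟩
    · linarith
    · have a := h4 k1 g2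
      have e1 : (c0 + c1) * (A * B) ≤ (A * B - C * D) * (A * B) := by
        have f1 : c1 * A * B ≤ x1 * (A * B - C * D) * B := mul_le_mul_of_nonneg_right k4 hB.le
        have f2 : c0 * B * A ≤ y0 * (A * B - C * D) * A := mul_le_mul_of_nonneg_right g4 hA.le
        have f3 : (x1 * B + y0 * A) * (A * B - C * D) ≤ A * B * (A * B - C * D) :=
          mul_le_mul_of_nonneg_right a hk
        linarith
      exact le_of_mul_le_mul_right e1 (mul_pos hA hB)
    · have a0 := h10 g2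
      have a1 := h11 k2
      have e1 : (y0 + y1) * C ≤ B * C := by
        have : - (x0 + x1) * B ≤ C * B := mul_le_mul_of_nonneg_right (by linarith) hB.le
        linarith
      have e2 : y0 + y1 ≤ B := le_of_mul_le_mul_right e1 hC
      refine hsmall (c0 + c1) (y0 + y1) _ B hB hk e2 ?_
      linarith

/-- **the convex step** (A): pairs `(A_i, B_(1-i))` have distance `≤ D-1`, pairs `(A_i, B_i)` distance `≤ D` -/
theorem stepA {N : ℕ} {a b : ℤ} (ha : 0 ≤ a) (hb : 0 ≤ b) (ha2 : 2 * (a + 1) ≤ N) (hb2 : 2 * (b + 1) ≤ N)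
    (hk : 0 ≤ kappa N a b) {u0 u1 v0 v1 : ℚ}
    (h1 : SS N (a - 1) b u0 v1) (h1' : SS N (a - 1) b u1 v0)
    (h2 : SS N a (b - 1) u0 v1) (h2' : SS N a (b - 1) u1 v0)
    (h3 : SS N a b u0 v0) (h3' : SS N a b u1 v1) :
    SS (N + 1) a b (u0 + u1) (v0 + v1) := by
  intro _ _ hu hv
  rcases le_or_gt u1 (ch N (a - 1)) with hc | hc
  · exact stepA_unb ha hb ha2 hb2 h2 h3 hu hv hc
  rcases le_or_gt u0 (ch N (a - 1)) with hc0 | hc0
  · rw [add_comm u0 u1, add_comm v0 v1] at *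
    exact stepA_unb ha hb ha2 hb2 h2' h3' hu hv hc0
  rcases le_or_gt v1 (ch N (b - 1)) with hd | hd
  · rw [LL_comm]
    exact stepA_unb hb ha hb2 ha2 (SS_symm h1') (SS_symm h3) hv hu hd
  rcases le_or_gt v0 (ch N (b - 1)) with hd0 | hd0
  · rw [LL_comm]
    rw [add_comm u0 u1, add_comm v0 v1] at *
    exact stepA_unb hb ha hb2 ha2 (SS_symm h1) (SS_symm h3') hv hu hd0
  have ea : 0 < d N (a + 1) := d_pos (by omega) ha2
  have eb : 0 < d N (b + 1) := d_pos (by omega) hb2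
  have ea0 : 0 < d N a := d_pos ha (by omega)
  have eb0 : 0 < d N b := d_pos hb (by omega)
  have hca : 0 < ch N a := ch_pos ha (by omega)
  have hcb : 0 < ch N b := ch_pos hb (by omega)
  have hda : ch N (a - 1) = ch N a - d N a := by unfold d; ring
  have hdb : ch N (b - 1) = ch N b - d N b := by unfold d; ring
  have na : 0 ≤ ch N (a - 1) := ch_nonneg _ _
  have nb : 0 ≤ ch N (b - 1) := ch_nonneg _ _
  have e1 : a - 1 + 1 = a := by ring
  have e2 : b - 1 + 1 = b := by ring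
  rw [LL_succ]
  rw [ch_succ] at hu hv
  have main := balanced_pure (x0 := u0 - ch N a) (y0 := v1 - ch N b) (x1 := u1 - ch N a) (y1 := v0 - ch N b)
    (A := d N (a + 1)) (B := d N (b + 1)) (C := d N a) (D := d N b) ea eb ea0 eb0 hk
    (by
      intro q
      have := h1 (by linarith) (by linarith) hc0.le (by linarith)
      unfold LL at this; rw [e1, hda] at this; linarith)
    (by
      intro q
      have := h2 (by linarith) (by linarith) (by linarith) hd.le
      unfold LL at this; rw [e2, hdb] at this; linarith)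
    (by
      intro q
      have := h1' (by linarith) (by linarith) hc.le (by linarith)
      unfold LL at this; rw [e1, hda] at this; linarith)
    (by
      intro q
      have := h2' (by linarith) (by linarith) (by linarith) hd0.le
      unfold LL at this; rw [e2, hdb] at this; linarith)
    (by linarith) (by linarith) (by linarith) (by linarith)
    (by
      intro q1 q2
      have := h3 (by linarith) (by linarith) (by linarith) (by linarith)
      unfold LL at this; linarith)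
    (by
      intro q1 q2
      have := h3' (by linarith) (by linarith) (by linarith) (by linarith)
      unfold LL at this; linarith)
    (by linarith) (by linarith)
  unfold kappa
  linarith

/-- **step (B1)** of LINE: a section of `A` with fewer than `C(N,a-1)` members gives `L ≤ 0` -/
theorem stepB1 {N : ℕ} {a b : ℤ} (ha : 0 ≤ a) (hb : 0 ≤ b) (ha2 : 2 * (a + 1) ≤ (N : ℤ) + 1)
    (hb2 : 2 * (b + 1) ≤ (N : ℤ) + 1) {u0 u1 v0 v1 : ℚ}
    (h1 : LN N a b u0 v0) (h2 : LN N a (b - 1) u0 v1)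
    (hu : ch (N + 1) a ≤ u0 + u1) (hun : u1 < ch N (a - 1)) : LL (N + 1) a b (u0 + u1) (v0 + v1) ≤ 0 := by
  have ea : 0 ≤ d N (a + 1) := d_nonneg ha2
  have eb : 0 ≤ d N (b + 1) := d_nonneg hb2
  have ea0 : 0 < d N a := d_pos ha (by omega)
  have eb0 : 0 < d N b := d_pos hb (by omega)
  have hdb : ch N (b - 1) = ch N b - d N b := by unfold d; ring
  have e2 : b - 1 + 1 = b := by ring
  rw [ch_succ] at hu
  have hu0 : ch N a < u0 := by linarith
  have f1 := h1 hu0.le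
  have f2 := h2 hu0.le
  unfold LL at f1 f2
  rw [e2, hdb] at f2
  have e3 : LL (N + 1) a b (u0 + u1) (v0 + v1)
      = (u0 + u1 - ch (N + 1) a) * (d N b + d N (b + 1))
        + (v0 + v1 - ch (N + 1) b) * (d N a + d N (a + 1))
        - (d N a + d N (a + 1)) * (d N b + d N (b + 1)) := by
    unfold LL
    rw [d_succ N (b + 1), d_succ N (a + 1)]
    have e1 : a + 1 - 1 = a := by ring
    have e2 : b + 1 - 1 = b := by ring
    rw [e1, e2]; ring
  rcases ea.eq_or_lt with hz | hz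
  · -- `d N (a+1) = 0`: contradiction with Sperner type inequality
    exfalso
    rw [← hz] at f1 f2
    have : 0 < (u0 - ch N a) * d N b := mul_pos (by linarith) eb0
    have q : 0 ≤ (u0 - ch N a) * d N (b + 1) := mul_nonneg (by linarith) eb
    linarith
  · have key : LL (N + 1) a b (u0 + u1) (v0 + v1) * d N (a + 1) ≤ 0 := by
      rw [e3]
      have hq : (u0 + u1 - ch (N + 1) a) ≤ u0 - ch N a := by rw [ch_succ]; linarith
      have hvv : (v0 + v1 - ch (N + 1) b) * d N (a + 1)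
          ≤ (d N (a + 1) - (u0 - ch N a)) * (d N b + d N (b + 1)) := by
        rw [ch_succ, hdb]; linarith
      have h6 : (v0 + v1 - ch (N + 1) b) * d N (a + 1) * (d N a + d N (a + 1))
          ≤ (d N (a + 1) - (u0 - ch N a)) * (d N b + d N (b + 1)) * (d N a + d N (a + 1)) :=
        mul_le_mul_of_nonneg_right hvv (by linarith)
      have h7 : (u0 + u1 - ch (N + 1) a) * ((d N b + d N (b + 1)) * d N (a + 1))
          ≤ (u0 - ch N a) * ((d N b + d N (b + 1)) * d N (a + 1)) :=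
        mul_le_mul_of_nonneg_right hq (mul_nonneg (by linarith) hz.le)
      have h8 : 0 ≤ (u0 - ch N a) * (d N b + d N (b + 1)) * d N a :=
        mul_nonneg (mul_nonneg (by linarith) (by linarith)) ea0.le
      nlinarith [h6, h7, h8]
    by_contra hcon
    push Not at hcon
    have := mul_pos hcon hz
    linarith

/-- **step (B2)** of LINE -/
theorem stepB2 {N : ℕ} {a b : ℤ} (ha : 1 ≤ a) (hb : 0 ≤ b) (ha2 : 2 * a ≤ N)
    (hb2 : 2 * (b + 1) ≤ (N : ℤ) + 1) (hk : kappa N a b ≤ 0) {u0 u1 v0 v1 : ℚ}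
    (h1 : SS N (a - 1) b u0 v1) (h1' : SS N (a - 1) b u1 v0)
    (g0 : ch N (a - 1) ≤ u0) (g1 : ch N (a - 1) ≤ u1)
    (hu : u0 + u1 < ch (N + 1) a) : LL (N + 1) a b (u0 + u1) (v0 + v1) ≤ 0 := by
  have eb : 0 ≤ d N (b + 1) := d_nonneg hb2
  have ea0 : 0 < d N a := d_pos (by omega) ha2
  have hda : ch N (a - 1) = ch N a - d N a := by unfold d; ring
  have e1 : a - 1 + 1 = a := by ring
  have na : 0 < ch N (a - 1) := ch_pos (by omega) (by omega)
  have hcb : 0 < ch N b := ch_pos hb (by omega)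
  rw [ch_succ] at hu
  have q0 : (u0 - ch N a) * d N (b + 1) + (v1 - ch N b) * d N a ≤ 0 := by
    rcases le_or_gt (ch N b) v1 with h | h
    · have := h1 (by linarith) (by linarith) g0 h
      unfold LL at this; rw [e1, hda] at this; linarith
    · have a1 : (u0 - ch N a) * d N (b + 1) ≤ 0 := mul_nonpos_of_nonpos_of_nonneg (by linarith) eb
      have a2 : (v1 - ch N b) * d N a ≤ 0 := mul_nonpos_of_nonpos_of_nonneg (by linarith) ea0.le
      linarith
  have q1 : (u1 - ch N a) * d N (b + 1) + (v0 - ch N b) * d N a ≤ 0 := by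
    rcases le_or_gt (ch N b) v0 with h | h
    · have := h1' (by linarith) (by linarith) g1 h
      unfold LL at this; rw [e1, hda] at this; linarith
    · have a1 : (u1 - ch N a) * d N (b + 1) ≤ 0 := mul_nonpos_of_nonpos_of_nonneg (by linarith) eb
      have a2 : (v0 - ch N b) * d N a ≤ 0 := mul_nonpos_of_nonpos_of_nonneg (by linarith) ea0.le
      linarith
  rw [LL_succ]
  set p := (u0 - ch N a) + (u1 - ch N a) with hp
  set q := (v0 - ch N b) + (v1 - ch N b) with hq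
  have hs : p * d N (b + 1) + q * d N a ≤ 0 := by rw [hp, hq]; linarith
  have hp2 : p + d N a < 0 := by rw [hp]; linarith
  have ea' : 0 ≤ d N a + d N (a + 1) := by
    have : d (N + 1) (a + 1) = d N (a + 1) + d N a := by
      rw [d_succ]; congr 2; ring
    have h2 : 0 ≤ d (N + 1) (a + 1) := d_nonneg (by push_cast; omega)
    linarith
  have key : (p * (d N b + d N (b + 1)) + q * (d N a + d N (a + 1)) - kappa N a b) * d N a ≤ 0 := by
    have h2 : (p * d N (b + 1) + q * d N a) * (d N a + d N (a + 1)) ≤ 0 :=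
      mul_nonpos_of_nonpos_of_nonneg hs ea'
    have h3 : 0 ≤ kappa N a b * (p + d N a) := mul_nonneg_of_nonpos_of_nonpos hk hp2.le
    unfold kappa at *
    nlinarith [h2, h3]
  by_contra hcon
  push Not at hcon
  have := mul_pos hcon ea0
  linarith


/-! ### the chain (B4): values of `LL` at full levels -/

/-- slopes: `D_(i+1) D_(b+1) ≤ D_(D-i) D_(a+1)` for `i ≥ a`, where `D = a+b+1` -/
theorem slope_chain {n : ℕ} {a b : ℤ} (hb : 0 ≤ b) (hab : b ≤ a) (hb2 : 2 * (b + 1) ≤ n)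
    (hreg : ((n : ℤ) - 2 * (a + 1)) * ((n : ℤ) - 2 * b) ≤ (n : ℤ) + 2) (k : ℕ)
    (hk1 : 2 * (a + k) ≤ n) (hk2 : (k : ℤ) ≤ b + 1) :
    d n (a + k + 1) * d n (b + 1) ≤ d n (b + 1 - k) * d n (a + 1) := by
  induction k with
  | zero => simp [mul_comm]
  | succ k ih =>
    have ih' := ih (by push_cast at hk1 ⊢; omega) (by push_cast at hk2 ⊢; omega)
    push_cast at hk1 hk2 ⊢
    -- concavity at the vertex `(a+k+1, b-k)`
    have hc : kappa n (a + k + 1) (b - k) ≤ 0 := by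
      apply kappa_nonpos (by omega) (by omega) (by omega) (by omega)
      have hk0 : (0 : ℤ) ≤ k := by positivity
      nlinarith [mul_nonneg hk0 (sub_nonneg.2 hab), mul_nonneg hk0 hk0]
    unfold kappa at hc
    have e1 : b - (k : ℤ) + 1 = b + 1 - k := by ring
    have e2 : b + 1 - ((k : ℤ) + 1) = b - k := by ring
    have e3 : a + ((k : ℤ) + 1) + 1 = a + k + 1 + 1 := by ring
    rw [e1] at hc
    rw [e2, e3]
    have p1 : 0 < d n (b + 1 - k) := d_pos (by omega) (by omega)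
    have p2 : 0 ≤ d n (b - k) := (d_pos (by omega) (by omega)).le
    have p3 : 0 ≤ d n (b + 1) := (d_pos (by omega) (by omega)).le
    have h1 : d n (a + k + 1 + 1) * d n (b + 1 - k) * d n (b + 1)
        ≤ d n (a + k + 1) * d n (b - k) * d n (b + 1) :=
      mul_le_mul_of_nonneg_right (by linarith) p3
    have h2 : d n (a + k + 1) * d n (b + 1) * d n (b - k)
        ≤ d n (b + 1 - k) * d n (a + 1) * d n (b - k) := mul_le_mul_of_nonneg_right ih' p2
    have h3 : (d n (a + k + 1 + 1) * d n (b + 1)) * d n (b + 1 - k)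
        ≤ (d n (b - k) * d n (a + 1)) * d n (b + 1 - k) := by linarith
    exact le_of_mul_le_mul_right h3 p1

theorem LL_point {n : ℕ} {a b : ℤ} : LL n a b (ch n a) (ch n (b + 1)) = 0 := by
  unfold LL
  have : ch n (b + 1) - ch n b = d n (b + 1) := by unfold d; congr 2; ring
  rw [this]; ring

/-- `LL ≤ 0` along the curve of full levels -/
theorem LL_curve {n : ℕ} {a b : ℤ} (hb : 0 ≤ b) (hab : b ≤ a) (hb2 : 2 * (b + 1) ≤ n)
    (hreg : ((n : ℤ) - 2 * (a + 1)) * ((n : ℤ) - 2 * b) ≤ (n : ℤ) + 2) (k : ℕ)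
    (hk1 : 2 * (a + k) ≤ n) (hk2 : (k : ℤ) ≤ b + 1) :
    LL n a b (ch n (a + k)) (ch n (b + 1 - k)) ≤ 0 := by
  induction k with
  | zero =>
    have := LL_point (n := n) (a := a) (b := b)
    simp [this]
  | succ k ih =>
    have ih' := ih (by push_cast at hk1 ⊢; omega) (by push_cast at hk2 ⊢; omega)
    have hs := slope_chain hb hab hb2 hreg k (by push_cast at hk1 ⊢; omega) (by push_cast at hk2 ⊢; omega)
    push_cast at hk1 hk2 ⊢
    have e1 : ch n (a + ((k : ℤ) + 1)) = ch n (a + k) + d n (a + k + 1) := by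
      unfold d
      have e : a + (k : ℤ) + 1 - 1 = a + k := by ring
      rw [e, add_assoc a (k : ℤ) 1]; ring
    have e2 : ch n (b + 1 - ((k : ℤ) + 1)) = ch n (b + 1 - k) - d n (b + 1 - k) := by
      unfold d
      have e : b + 1 - ((k : ℤ) + 1) = b + 1 - k - 1 := by ring
      rw [e]; ring
    rw [e1, e2]
    unfold LL at ih' ⊢
    linarith

/-- the regime of LINE: `b ≤ a` and `(n-1-2a)(n-1-2b) < n+1` -/
def Reg (n : ℕ) (a b : ℤ) : Prop :=
  b ≤ a ∧ ((n : ℤ) - 1 - 2 * a) * ((n : ℤ) - 1 - 2 * b) < (n : ℤ) + 1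

/-- `LL` at two full levels `i, j` with `i + j ≤ D`, `i ≥ a`, both in the lower half -/
theorem LL_levels {n : ℕ} {a b : ℤ} (hb : 0 ≤ b) (hreg : Reg n a b) (ha2 : 2 * (a + 1) ≤ (n : ℤ) + 1)
    (hb2 : 2 * (b + 1) ≤ n) {i j : ℤ} (hi : a ≤ i) (hi2 : 2 * i ≤ n) (hj : 0 ≤ j)
    (hij : i + j ≤ a + b + 1) : LL n a b (ch n i) (ch n j) ≤ 0 := by
  obtain ⟨hab, hr⟩ := hreg
  obtain ⟨k, rfl⟩ := Int.le.dest hi
  have hreg' : ((n : ℤ) - 2 * (a + 1)) * ((n : ℤ) - 2 * b) ≤ (n : ℤ) + 2 := by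
    nlinarith
  have h1 := LL_curve hb hab hb2 hreg' k hi2 (by omega)
  have h2 : ch n j ≤ ch n (b + 1 - k) := ch_mono (by omega) (by omega)
  have h3 : 0 ≤ d n (a + 1) := d_nonneg ha2
  have h4 : (ch n j - ch n b) * d n (a + 1) ≤ (ch n (b + 1 - k) - ch n b) * d n (a + 1) :=
    mul_le_mul_of_nonneg_right (by linarith) h3
  unfold LL at h1 ⊢
  linarith

/-- in the regime (with `b ≥ 0`) the distance `D = a+b+1` is at least `n/2` -/
theorem Reg_half {n : ℕ} {a b : ℤ} (hb : 0 ≤ b) (hreg : Reg n a b)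
    {i : ℤ} (hi2 : 2 * i ≤ n) : i ≤ a + b + 1 := by
  obtain ⟨hab, hr⟩ := hreg
  by_contra hcon
  push Not at hcon
  -- A = n-1-2a ≥ 0, B = n-1-2b, A + B = 2n - 2 - 2(a+b) ≥ n + ...
  have h1 : 2 * (a + b + 2) ≤ n := by omega
  have hA : (n : ℤ) - 1 - 2 * a ≥ 3 + 2 * b := by omega
  have hB : (n : ℤ) - 1 - 2 * b ≥ 3 + 2 * a := by omega
  have hn : (n : ℤ) ≥ 2 * (a + b + 2) := by omega
  -- product ≥ 3 (n-1-2b) ≥ ... ; use the exact estimate
  nlinarith [mul_nonneg (sub_nonneg.2 hA) hb, mul_nonneg hb (sub_nonneg.2 hB),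
    mul_nonneg (sub_nonneg.2 hA) (sub_nonneg.2 hB)]

/-- `LL` at a full level and the empty family -/
theorem LL_cap {n : ℕ} {a b : ℤ} (hb : 0 ≤ b) (hreg : Reg n a b) (ha2 : 2 * (a + 1) ≤ (n : ℤ) + 1)
    (hb2 : 2 * (b + 1) ≤ n) {i : ℤ} (hi : a ≤ i) (hi2 : 2 * i ≤ n) : LL n a b (ch n i) 0 ≤ 0 := by
  have h0 := Reg_half hb hreg hi2
  have h1 := LL_levels hb hreg ha2 hb2 hi hi2 (le_refl 0) (by omega)
  have h3 : 0 ≤ d n (a + 1) := d_nonneg ha2
  rw [ch_zero] at h1
  unfold LL at h1 ⊢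
  linarith

/-! ### regimes -/

theorem Reg_down {N : ℕ} {a b : ℤ} (ha2 : 2 * (a + 1) ≤ (N : ℤ) + 1) (hreg : Reg (N + 1) a b) :
    Reg N a b := by
  obtain ⟨hab, hr⟩ := hreg
  refine ⟨hab, ?_⟩
  push_cast at hr
  nlinarith

theorem Reg_down' {N : ℕ} {a b : ℤ} (hreg : Reg (N + 1) a b) : Reg N a (b - 1) := by
  obtain ⟨hab, hr⟩ := hreg
  refine ⟨by omega, ?_⟩
  push_cast at hr
  nlinarith

/-- outside the regime everything is far from the boundary -/
theorem not_Reg {N : ℕ} {a b : ℤ} (hb : 0 ≤ b) (hab : b ≤ a) (ha2 : 2 * (a + 1) ≤ (N : ℤ) + 2)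
    (h : ¬ Reg (N + 1) a b) : 2 * (a + 1) ≤ N ∧ 2 * (b + 1) ≤ N ∧ 0 ≤ kappa N a b := by
  have hr : (N : ℤ) + 2 ≤ ((N : ℤ) - 2 * a) * ((N : ℤ) - 2 * b) := by
    by_contra hcon
    push Not at hcon
    apply h
    refine ⟨hab, ?_⟩
    push_cast
    linarith
  have h1 : 2 * (a + 1) ≤ N := by
    by_contra hcon
    push Not at hcon
    have h2 : (N : ℤ) - 2 * a ≤ 1 := by omega
    have h3 : 0 ≤ (N : ℤ) - 2 * a := by omega
    have h4 : 0 ≤ (N : ℤ) - 2 * b := by omega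
    nlinarith
  refine ⟨h1, by omega, ?_⟩
  exact kappa_nonneg (by omega) hb (by omega) (by omega) hr

/-- in the regime, `kappa ≤ 0` -/
theorem Reg_kappa {N : ℕ} {a b : ℤ} (hb : 0 ≤ b) (ha2 : 2 * a ≤ N) (hreg : Reg (N + 1) a b) :
    kappa N a b ≤ 0 := by
  obtain ⟨hab, hr⟩ := hreg
  push_cast at hr
  apply kappa_nonpos (by omega) hb ha2 (by omega)
  linarith

/-- in the regime with `0 ≤ b`, `2(b+2) ≤ n` we have `a ≥ 1` -/
theorem Reg_a_pos {n : ℕ} {a b : ℤ} (hb : 0 ≤ b) (hb2 : 2 * (b + 2) ≤ n) (hreg : Reg n a b) : 1 ≤ a := by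
  obtain ⟨hab, hr⟩ := hreg
  by_contra hcon
  push Not at hcon
  have ha : a = 0 := by omega
  have hb0 : b = 0 := by omega
  subst ha hb0
  have : (4 : ℤ) ≤ n := by omega
  nlinarith

/-- the regime with `b = -1` is the boundary `2(a+1) = n+1` -/
theorem Reg_neg {n : ℕ} {a : ℤ} (ha2 : 2 * (a + 1) ≤ (n : ℤ) + 1) (hreg : Reg n a (-1)) :
    2 * (a + 1) = (n : ℤ) + 1 := by
  obtain ⟨_, hr⟩ := hreg
  by_contra hcon
  have h1 : 1 ≤ (n : ℤ) - 1 - 2 * a := by omega
  have hn : (0 : ℤ) ≤ n := by positivity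
  nlinarith

/-! ### Sperner type and degenerate cases -/

/-- boundary `2(a+1) = n+1`: `u ≤ C(n,a)` gives `LL ≤ 0` -/
theorem LL_boundary {n : ℕ} {a b : ℤ} (ha : 2 * (a + 1) = (n : ℤ) + 1) (hb2 : 2 * (b + 1) ≤ (n : ℤ) + 1)
    {u v : ℚ} (hu : u ≤ ch n a) : LL n a b u v ≤ 0 := by
  have h1 : d n (a + 1) = 0 := d_eq_zero ha
  have h2 : 0 ≤ d n (b + 1) := d_nonneg hb2
  unfold LL
  rw [h1]
  have := mul_nonpos_of_nonpos_of_nonneg (sub_nonpos.2 hu) h2
  linarith

/-- `u ≤ C(n,a)`, `v ≤ C(n,b+1)` gives `LL ≤ 0` -/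
theorem LL_small {n : ℕ} {a b : ℤ} (ha2 : 2 * (a + 1) ≤ (n : ℤ) + 1) (hb2 : 2 * (b + 1) ≤ (n : ℤ) + 1)
    {u v : ℚ} (hu : u ≤ ch n a) (hv : v ≤ ch n (b + 1)) : LL n a b u v ≤ 0 := by
  have h1 : 0 ≤ d n (a + 1) := d_nonneg ha2
  have h2 : 0 ≤ d n (b + 1) := d_nonneg hb2
  have e : ch n (b + 1) = ch n b + d n (b + 1) := by unfold d; rw [show b + 1 - 1 = b by ring]; ring
  unfold LL
  have q1 := mul_nonpos_of_nonpos_of_nonneg (sub_nonpos.2 hu) h2
  have q2 : (v - ch n b) * d n (a + 1) ≤ d n (b + 1) * d n (a + 1) :=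
    mul_le_mul_of_nonneg_right (by linarith) h1
  linarith

/-- `LL` is affine: midpoint rule used for the two outcomes of `T_xy` -/
theorem LL_midpoint (n : ℕ) (a b : ℤ) {u u1 u2 v v1 v2 : ℚ} (hu : u1 + u2 = 2 * u) (hv : v1 + v2 = 2 * v) :
    LL n a b u1 v1 + LL n a b u2 v2 = 2 * LL n a b u v := by
  unfold LL
  have e1 : u1 = 2 * u - u2 := by linarith
  have e2 : v1 = 2 * v - v2 := by linarith
  rw [e1, e2]; ring

/-- `a = -1`: the statement for `(-1, b)` follows from the one for `(0, b-1)` -/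
theorem SS_neg {n : ℕ} {b : ℤ} (hb : 1 ≤ b) (hn : 2 ≤ n) (hb2 : 2 * (b + 1) ≤ (n : ℤ) + 1) {u v : ℚ}
    (hu1 : 1 ≤ u) (h : SS n 0 (b - 1) u v) : SS n (-1) b u v := by
  intro hu hv _ hv2
  have hbm : ch n (b - 1) ≤ v := le_trans (ch_mono (by omega) (by omega)) hv2
  have h1 := h hu hv (by rw [ch_zero]; exact hu1) hbm
  unfold LL at h1 ⊢
  rw [ch_zero, show b - 1 + 1 = b by ring, show (0 : ℤ) + 1 = 1 by ring, d_one] at h1
  rw [ch_neg (show (-1 : ℤ) < 0 by omega), show (-1 : ℤ) + 1 = 0 by ring, d_zero]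
  have hdb : 0 < d n b := d_pos (by omega) (by omega)
  have hdef : ch n (b - 1) = ch n b - d n b := by unfold d; ring
  rw [hdef] at h1
  have hn' : (2 : ℚ) ≤ n := by exact_mod_cast hn
  have hx : 0 ≤ (v - ch n b) * ((n : ℚ) - 1) := mul_nonneg (by linarith) (by linarith)
  have h2 : (u - 1) * d n b ≤ 0 := by linarith
  have hu2 : u = 1 := by
    rcases hu1.eq_or_lt with q | q
    · exact q.symm
    · exfalso
      have := mul_pos (sub_pos.2 q) hdb
      linarith
  subst hu2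
  have h3 : (v - ch n b) * ((n : ℚ) - 1) ≤ 0 := by linarith
  have h4 : v ≤ ch n b := by
    by_contra hcon
    push Not at hcon
    have := mul_pos (sub_pos.2 hcon) (show (0 : ℚ) < (n : ℚ) - 1 by linarith)
    linarith
  linarith

/-- `D = 0`: `(a,b) = (-1,0)` with one member on each side -/
theorem SS_zero {n : ℕ} {u v : ℚ} (hu : u = 1) (hv : v = 1) : LL n (-1) 0 u v ≤ 0 := by
  subst hu hv
  unfold LL
  rw [ch_neg (show (-1 : ℤ) < 0 by omega), show (-1 : ℤ) + 1 = 0 by ring, d_zero, ch_zero]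
  linarith

/-! ### from the two inequalities to the bound for one family -/

/-- final arithmetic: `D = 2s`, `a = s`, `b = s-1`: `SS n s (s-1) u u` gives `u ≤ C(n,s)` -/
theorem final_arith {n : ℕ} {s : ℤ} (hs : 0 ≤ s) (hs2 : 2 * (s + 1) ≤ n) {u : ℚ} (hu : 0 < u)
    (h : SS n s (s - 1) u u) : u ≤ ch n s := by
  by_contra hcon
  push Not at hcon
  have hm : ch n (s - 1) ≤ u := le_trans (ch_mono (by omega) (by omega)) hcon.le
  have h1 := h hu hu hcon.le hm
  unfold LL at h1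
  rw [show s - 1 + 1 = s by ring] at h1
  have hdef : ch n (s - 1) = ch n s - d n s := by unfold d; ring
  rw [hdef] at h1
  have p1 : 0 < d n s := d_pos hs (by omega)
  have p2 : 0 < d n (s + 1) := d_pos (by omega) (by omega)
  have := mul_pos (sub_pos.2 hcon) (add_pos p1 p2)
  linarith

end EH57
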